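import Pool.Agent.Helper1.Stab.Defs

/-! Frames with two free columns, and homotopies of maps given by families of frames. -/

open Topology Set unitInterval

noncomputable section

namespace Pool.Agent.Helper1.Stab

/-! ## Relations of frames -/

theorem frameRel_refl {D : Set ℂ} (h1 : (1 : ℂ) ∈ D) {k : ℕ} (A : Frame k) : FrameRel D k A A := by
  refine ⟨1, one_mem _, by rwa [Matrix.det_one], fun i j => ?_⟩
  simp [Matrix.one_apply]

theorem frameRel_symm {D : Set ℂ} (hs : ∀ z ∈ D, star z ∈ D) {k : ℕ} {A B : Frame k}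
    (h : FrameRel D k A B) : FrameRel D k B A := by
  obtain ⟨g, hg, hd, rfl⟩ := frameRel_iff h
  have h1 : g * star g = 1 := (Matrix.mem_unitaryGroup_iff).1 hg
  have h2 : star g * g = 1 := (Matrix.mem_unitaryGroup_iff').1 hg
  have hsg : star g ∈ Matrix.unitaryGroup (Fin k) ℂ :=
    (Matrix.mem_unitaryGroup_iff).2 (by rw [star_star]; exact h2)
  have hds : Matrix.det (star g) ∈ D := by
    rw [Matrix.star_eq_conjTranspose, Matrix.det_conjTranspose]
    exact hs _ hd
  have h3 := frameRel_rot (D := D) (A.rot g hg) (star g) hsg hds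
  rwa [Frame.rot_rot_star _ _ _ _ _ h1] at h3

theorem frameRel_trans {D : Set ℂ} (hm : ∀ z ∈ D, ∀ w ∈ D, z * w ∈ D) {k : ℕ} {A B C : Frame k}
    (h : FrameRel D k A B) (h' : FrameRel D k B C) : FrameRel D k A C := by
  obtain ⟨g, hg, hd, hB⟩ := h
  obtain ⟨g', hg', hd', hC⟩ := h'
  refine ⟨g * g', mul_mem hg hg', ?_, fun i j => ?_⟩
  · rw [Matrix.det_mul]
    exact hm _ hd _ hd'
  · rw [hC]
    simp only [hB, Matrix.mul_apply, Finset.sum_mul, Finset.mul_sum]
    rw [Finset.sum_comm]
    refine Finset.sum_congr rfl fun c _ => Finset.sum_congr rfl fun c' _ => ?_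
    ring

/-- equal classes are related -/
theorem frameRel_exact {D : Set ℂ} (h1 : (1 : ℂ) ∈ D) (hs : ∀ z ∈ D, star z ∈ D)
    (hm : ∀ z ∈ D, ∀ w ∈ D, z * w ∈ D) {k : ℕ} {A B : Frame k}
    (h : (Quot.mk (FrameRel D k) A : Gr D k) = Quot.mk (FrameRel D k) B) : FrameRel D k A B := by
  have h2 : Relation.EqvGen (FrameRel D k) A B := Quot.eqvGen_exact h
  clear h
  induction h2 with
  | rel x y h => exact h
  | refl x => exact frameRel_refl h1 x
  | symm x y _ ih => exact frameRel_symm hs ih
  | trans x y z _ _ ih1 ih2 => exact frameRel_trans hm ih1 ih2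

theorem frameRel_exact_univ {k : ℕ} {A B : Frame k}
    (h : (Quot.mk (FrameRel Set.univ k) A : Gr Set.univ k) = Quot.mk (FrameRel Set.univ k) B) :
    FrameRel Set.univ k A B :=
  frameRel_exact (mem_univ _) (fun _ _ => mem_univ _) (fun _ _ _ _ => mem_univ _) h

theorem frameRel_exact_one {k : ℕ} {A B : Frame k}
    (h : (Quot.mk (FrameRel {1} k) A : Gr {1} k) = Quot.mk (FrameRel {1} k) B) :
    FrameRel {1} k A B :=
  frameRel_exact (mem_singleton _) (fun z hz => by
    rw [mem_singleton_iff] at hz ⊢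
    rw [hz, star_one]) (fun z hz w hw => by
    rw [mem_singleton_iff] at hz hw ⊢
    rw [hz, hw, one_mul]) h

/-- The direct sum of two rotated isometries, explicitly. -/
theorem frame_sum_rot {k l : ℕ} {B B' : Frame k} {A A' : Frame l}
    {g : Matrix (Fin k) (Fin k) ℂ} {h : Matrix (Fin l) (Fin l) ℂ}
    (hB : ∀ (i : ℕ) (j : Fin k), B'.1 i j = ∑ m : Fin k, B.1 i m * g m j)
    (hA : ∀ (i : ℕ) (j : Fin l), A'.1 i j = ∑ m : Fin l, A.1 i m * h m j)
    (i : ℕ) (j : Fin (k + l)) : (B'.sum A').1 i j = ∑ m : Fin (k + l), (B.sum A).1 i m *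
      (Matrix.reindex finSumFinEquiv finSumFinEquiv (Matrix.fromBlocks g 0 0 h)) m j := by
  rw [Fin.sum_univ_add]
  refine Fin.addCases (fun j0 => ?_) (fun j0 => ?_) j
  · rw [Frame.sum_castAdd, hB]
    simp only [Frame.sum_castAdd, Matrix.reindex_apply, Matrix.submatrix_apply,
      finSumFinEquiv_symm_apply_castAdd, finSumFinEquiv_symm_apply_natAdd,
      Matrix.fromBlocks_apply₁₁, Matrix.fromBlocks_apply₂₁, Matrix.zero_apply, mul_zero,
      Finset.sum_const_zero, add_zero]
  · rw [Frame.sum_natAdd]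
    simp only [Frame.sum_natAdd, Matrix.reindex_apply, Matrix.submatrix_apply,
      finSumFinEquiv_symm_apply_castAdd, finSumFinEquiv_symm_apply_natAdd,
      Matrix.fromBlocks_apply₁₂, Matrix.fromBlocks_apply₂₂, Matrix.zero_apply, mul_zero,
      Finset.sum_const_zero, zero_add]
    by_cases hi : i < 2 * k
    · simp only [if_pos hi, zero_mul, Finset.sum_const_zero]
    · simp only [if_neg hi]
      exact hA _ _

theorem det_blocks {k l : ℕ} (g : Matrix (Fin k) (Fin k) ℂ) (h : Matrix (Fin l) (Fin l) ℂ) :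
    (Matrix.reindex finSumFinEquiv finSumFinEquiv (Matrix.fromBlocks g 0 0 h)).det =
      g.det * h.det := by
  rw [Matrix.det_reindex_self, Matrix.det_fromBlocks_zero₂₁]

/-! ## Homotopies given by families of frames -/

theorem frame_homotopy {X Y : Type} [TopologicalSpace X] [TopologicalSpace Y] (q : Y → X)
    (hq : IsOpenQuotientMap q) {n : ℕ} (Ψ : I × Y → Frame n) (hΨ : Continuous Ψ)
    (he : ∀ s y y', q y = q y' → FrameRel {1} n (Ψ (s, y)) (Ψ (s, y'))) :
    ∃ F G : C(X, BG {1}), F.Homotopic G ∧ (∀ y, F (q y) = Quot.mk _ ⟨n, Ψ (0, y)⟩) ∧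
      ∀ y, G (q y) = Quot.mk _ ⟨n, Ψ (1, y)⟩ := by
  let H : I × X → BG {1} := fun p =>
    Quot.mk _ ⟨n, Ψ (p.1, Function.surjInv hq.surjective p.2)⟩
  have hH : ∀ s y, H (s, q y) = Quot.mk _ ⟨n, Ψ (s, y)⟩ := fun s y =>
    Quot.sound (.rot (he s _ _ (Function.surjInv_eq hq.surjective (q y))))
  have hcont : Continuous H := by
    have h1 : IsOpenQuotientMap (Prod.map (id : I → I) q) := IsOpenQuotientMap.id.prodMap hq
    refine h1.continuous_comp_iff.1 ?_
    have h2 : Continuous fun p : I × Y => (Quot.mk (BRel {1}) ⟨n, Ψ p⟩ : BG {1}) :=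
      continuous_quot_mk.comp (continuous_sigmaMk.comp hΨ)
    exact h2.congr fun p => (hH p.1 p.2).symm
  refine ⟨⟨fun x => H (0, x), hcont.comp (by fun_prop)⟩,
    ⟨fun x => H (1, x), hcont.comp (by fun_prop)⟩, ⟨⟨⟨H, hcont⟩, fun x => rfl, fun x => rfl⟩⟩,
    fun y => hH 0 y, fun y => hH 1 y⟩

/-! ## Frames with two free columns -/

/-- The conditions on the two columns. -/
structure TwoCol (m : ℕ) (x y : ℕ → ℂ) : Prop where
  hx : ∀ i, 2 * (2 + m) ≤ i → x i = 0
  hy : ∀ i, 2 * (2 + m) ≤ i → y i = 0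
  hx' : ∀ j, 2 ≤ j → x (2 * j) = 0
  hy' : ∀ j, 2 ≤ j → y (2 * j) = 0
  xx : ∑ i ∈ Finset.range (2 * (2 + m)), star (x i) * x i = 1
  yy : ∑ i ∈ Finset.range (2 * (2 + m)), star (y i) * y i = 1
  xy : ∑ i ∈ Finset.range (2 * (2 + m)), star (x i) * y i = 0

/-- The frame with the columns `x`, `y`, `e_4`, `e_6`, … -/
def twoVec (m : ℕ) (x y : ℕ → ℂ) (h : TwoCol m x y) : Frame (2 + m) :=
  ⟨fun i j => if j = 0 then x i else if j = 1 then y i else if i = 2 * j then 1 else 0, by
    refine ⟨fun i j hij => ?_, fun j hj j' hj' => ?_⟩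
    · dsimp only
      by_cases h0 : j = 0
      · rw [if_pos h0, h.hx i (by omega), if_neg (by omega)]
      · rw [if_neg h0]
        by_cases h1 : j = 1
        · rw [if_pos h1, h.hy i (by omega), if_neg (by omega)]
        · rw [if_neg h1]
    · dsimp only
      have hyx : ∑ i ∈ Finset.range (2 * (2 + m)), star (y i) * x i = 0 := by
        have h1 := congrArg star h.xy
        rw [star_sum, star_zero] at h1
        rw [← h1]
        refine Finset.sum_congr rfl fun i _ => ?_
        rw [star_mul, star_star]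
      have hd1 : ∀ (z : ℕ → ℂ) (j : ℕ), j < 2 + m → z (2 * j) = 0 →
          ∑ i ∈ Finset.range (2 * (2 + m)), star (z i) * (if i = 2 * j then 1 else 0) = 0 := by
        intro z j hj hz
        refine Finset.sum_eq_zero fun i _ => ?_
        by_cases hi : i = 2 * j
        · rw [hi, hz, star_zero, zero_mul]
        · rw [if_neg hi, mul_zero]
      have hd2 : ∀ (z : ℕ → ℂ) (j : ℕ), j < 2 + m → z (2 * j) = 0 →
          ∑ i ∈ Finset.range (2 * (2 + m)), star (if i = 2 * j then (1 : ℂ) else 0) * z i = 0 := by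
        intro z j hj hz
        refine Finset.sum_eq_zero fun i _ => ?_
        by_cases hi : i = 2 * j
        · rw [hi, hz, mul_zero]
        · rw [if_neg hi, star_zero, zero_mul]
      by_cases h0 : j = 0
      · simp only [if_pos h0]
        by_cases h0' : j' = 0
        · simp only [if_pos h0']
          rw [h.xx, if_pos (by omega)]
        · simp only [if_neg h0']
          rw [if_neg (by omega : ¬ j = j')]
          by_cases h1' : j' = 1
          · simp only [if_pos h1']
            exact h.xy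
          · simp only [if_neg h1']
            exact hd1 x j' hj' (h.hx' j' (by omega))
      · simp only [if_neg h0]
        by_cases h1 : j = 1
        · simp only [if_pos h1]
          by_cases h0' : j' = 0
          · simp only [if_pos h0']
            rw [if_neg (by omega : ¬ j = j')]
            exact hyx
          · simp only [if_neg h0']
            by_cases h1' : j' = 1
            · simp only [if_pos h1']
              rw [h.yy, if_pos (by omega)]
            · simp only [if_neg h1']
              rw [if_neg (by omega : ¬ j = j')]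
              exact hd1 y j' hj' (h.hy' j' (by omega))
        · simp only [if_neg h1]
          by_cases h0' : j' = 0
          · simp only [if_pos h0']
            rw [if_neg (by omega : ¬ j = j')]
            exact hd2 x j hj (h.hx' j (by omega))
          · simp only [if_neg h0']
            by_cases h1' : j' = 1
            · simp only [if_pos h1']
              rw [if_neg (by omega : ¬ j = j')]
              exact hd2 y j hj (h.hy' j (by omega))
            · simp only [if_neg h1']
              rw [Finset.sum_eq_single (2 * j)]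
              · by_cases hjj : j = j'
                · simp [hjj]
                · rw [if_neg (by omega : ¬ 2 * j = 2 * j'), if_neg hjj, mul_zero]
              · intro i _ hi
                rw [if_neg hi, star_zero, zero_mul]
              · intro hi
                exact absurd (Finset.mem_range.2 (by omega)) hi⟩

theorem twoVec_rel {m : ℕ} {x y x' y' : ℕ → ℂ} (h : TwoCol m x y) (h' : TwoCol m x' y')
    (g : Matrix (Fin 2) (Fin 2) ℂ) (hx : ∀ i, x' i = x i * g 0 0 + y i * g 1 0)
    (hy : ∀ i, y' i = x i * g 0 1 + y i * g 1 1) (i : ℕ) (j : Fin (2 + m)) :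
    (twoVec m x' y' h').1 i j = ∑ c : Fin (2 + m), (twoVec m x y h).1 i c *
      (Matrix.reindex finSumFinEquiv finSumFinEquiv
        (Matrix.fromBlocks g 0 0 (1 : Matrix (Fin m) (Fin m) ℂ))) c j := by
  rw [Fin.sum_univ_add]
  refine Fin.addCases (fun j0 => ?_) (fun j0 => ?_) j
  · simp only [Matrix.reindex_apply, Matrix.submatrix_apply,
      finSumFinEquiv_symm_apply_castAdd, finSumFinEquiv_symm_apply_natAdd,
      Matrix.fromBlocks_apply₁₁, Matrix.fromBlocks_apply₂₁, Matrix.zero_apply, mul_zero,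
      Finset.sum_const_zero, add_zero]
    rw [Fin.sum_univ_two]
    fin_cases j0
    · exact hx i
    · exact hy i
  · simp only [Matrix.reindex_apply, Matrix.submatrix_apply,
      finSumFinEquiv_symm_apply_castAdd, finSumFinEquiv_symm_apply_natAdd,
      Matrix.fromBlocks_apply₁₂, Matrix.fromBlocks_apply₂₂, Matrix.zero_apply, mul_zero,
      Finset.sum_const_zero, zero_add, Matrix.one_apply]
    rw [Finset.sum_eq_single j0]
    · rw [if_pos rfl, mul_one]
      have e : ((Fin.natAdd 2 j0 : Fin (2 + m)) : ℕ) = 2 + j0 := rfl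
      have e0 : ¬ (2 + (j0 : ℕ) = 0) := by omega
      have e1 : ¬ (2 + (j0 : ℕ) = 1) := by omega
      simp only [twoVec, e, if_neg e0, if_neg e1]
    · intro c _ hc
      rw [if_neg hc, mul_zero]
    · intro hc
      exact absurd (Finset.mem_univ _) hc

/-- The direct sums of related frames with related two-column frames. -/
theorem sum_twoVec_rel {l m : ℕ} {A A' : Frame l} {x y x' y' : ℕ → ℂ} (h : TwoCol m x y)
    (h' : TwoCol m x' y') {gA : Matrix (Fin l) (Fin l) ℂ} (hgA : gA ∈ Matrix.unitaryGroup (Fin l) ℂ)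
    (hA : ∀ (i : ℕ) (j : Fin l), A'.1 i j = ∑ c : Fin l, A.1 i c * gA c j)
    {g : Matrix (Fin 2) (Fin 2) ℂ} (hg : g ∈ Matrix.unitaryGroup (Fin 2) ℂ)
    (hd : gA.det * g.det = 1) (hx : ∀ i, x' i = x i * g 0 0 + y i * g 1 0)
    (hy : ∀ i, y' i = x i * g 0 1 + y i * g 1 1) :
    FrameRel {1} (l + (2 + m)) (A.sum (twoVec m x y h)) (A'.sum (twoVec m x' y' h')) := by
  refine frameRel_sum hgA (blocks_unitary hg (one_mem _)) ?_ hA (twoVec_rel h h' g hx hy)
  rw [det_blocks, Matrix.det_one, mul_one, mem_singleton_iff]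
  exact hd

theorem sum_range_supp {z : ℕ → ℂ} {N M : ℕ} (hNM : N ≤ M) (h0 : ∀ i, N ≤ i → z i = 0) :
    ∑ i ∈ Finset.range M, star (z i) * z i = ∑ i ∈ Finset.range N, star (z i) * z i := by
  symm
  refine Finset.sum_subset (Finset.range_mono hNM) fun i _ hi => ?_
  rw [h0 i (by simpa using hi), mul_zero]

theorem twoCol_aux (N : ℕ) (v : ℕ → ℂ) (h0 : ∀ i, N ≤ i → v i = 0)
    (h1 : ∑ i ∈ Finset.range N, star (v i) * v i = 1) (c s : ℝ) (hcs : c ^ 2 + s ^ 2 = 1) :
    TwoCol N (fun i => if 3 ≤ i ∧ i % 2 = 1 then v ((i - 3) / 2) else 0)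
      (fun i => if i = 0 then (s : ℂ) else if i = 2 then (c : ℂ) else 0) where
  hx i hi := by
    by_cases h : 3 ≤ i ∧ i % 2 = 1
    · rw [if_pos h, h0 _ (by omega)]
    · rw [if_neg h]
  hy i hi := by
    rw [if_neg (by omega), if_neg (by omega)]
  hx' j hj := by
    rw [if_neg (by omega)]
  hy' j hj := by
    rw [if_neg (by omega), if_neg (by omega)]
  xx := by
    rw [← h1]
    symm
    refine Finset.sum_of_injOn (fun t => 2 * t + 3) (fun a _ b _ hab => ?_) (fun t ht => ?_)
      (fun i hi hi' => ?_) (fun t ht => ?_)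
    · dsimp only at hab
      omega
    · rw [Finset.mem_coe, Finset.mem_range] at ht ⊢
      show 2 * t + 3 < _
      omega
    · by_cases h : 3 ≤ i ∧ i % 2 = 1
      · rw [if_pos h]
        by_cases h2 : (i - 3) / 2 < N
        · refine absurd ⟨(i - 3) / 2, ?_, ?_⟩ hi'
          · rw [Finset.mem_coe, Finset.mem_range]
            exact h2
          · show 2 * ((i - 3) / 2) + 3 = i
            omega
        · rw [h0 _ (by omega), mul_zero]
      · rw [if_neg h, mul_zero]
    · have e : (2 * t + 3 - 3) / 2 = t := by omega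
      rw [if_pos (by omega), e]
  yy := by
    have e1 : ∀ i : ℕ, star (if i = 0 then (s : ℂ) else if i = 2 then (c : ℂ) else 0) *
        (if i = 0 then (s : ℂ) else if i = 2 then (c : ℂ) else 0) =
        (if i = 0 then (s : ℂ) ^ 2 else 0) + (if i = 2 then (c : ℂ) ^ 2 else 0) := by
      intro i
      by_cases h2 : i = 0
      · subst h2
        simp [Complex.conj_ofReal, pow_two]
      · by_cases h3 : i = 2
        · subst h3
          simp [Complex.conj_ofReal, pow_two]
        · simp [h2, h3]
    simp only [e1]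
    rw [Finset.sum_add_distrib, Finset.sum_ite_eq', Finset.sum_ite_eq', if_pos (Finset.mem_range.2 (by omega)),
      if_pos (Finset.mem_range.2 (by omega))]
    exact_mod_cast (by rw [add_comm]; exact hcs)
  xy := by
    refine Finset.sum_eq_zero fun i _ => ?_
    by_cases h : 3 ≤ i ∧ i % 2 = 1
    · rw [if_neg (by omega : ¬ i = 0), if_neg (by omega : ¬ i = 2), mul_zero]
    · rw [if_neg h, star_zero, zero_mul]

end Pool.Agent.Helper1.Stab
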