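import Pool.Agent.Helper60.Stab.ClsAdd

/-! The groups `[ℂ^j × ℂ × K, Z]`, naturally in `K`, and the class map of a prespectrum. -/

open CategoryTheory Topology Filter Set Opposite

noncomputable section

namespace Pool.Agent.Helper1.Stab

/-- a product with a fixed space preserves additive functors -/
theorem isAddFun_prodL56 {F : LCᵒᵖ ⥤ Type} (hF : IsAddFun F) (X : LC) :
    IsAddFun ((LC.prodL X).op ⋙ F) where
  empty := by
    let e : (X.prod LC.empty) ≃ₜ LC.empty :=
      { toFun := fun x => x.2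
        invFun := fun x => x.elim
        left_inv := fun x => x.2.elim
        right_inv := fun x => x.elim
        continuous_toFun := continuous_snd
        continuous_invFun := continuous_of_const fun x => x.elim }
    obtain ⟨z, hz⟩ := hF.empty
    have h1 : (PMap.ofHomeo e.symm).comp (PMap.ofHomeo e) = PMap.id (X.prod LC.empty) := by
      ext x
      exact x.2.elim
    refine ⟨pb F (PMap.ofHomeo e) z, fun y => ?_⟩
    have h2 := pb_comp F (PMap.ofHomeo e.symm) (PMap.ofHomeo e) (y : F.obj (op (X.prod LC.empty)))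
    rw [h1, pb_id] at h2
    rw [h2, hz (pb F (PMap.ofHomeo e.symm) y)]
    rfl
  sum K L := by
    let e : (X.prod (K.sum L)) ≃ₜ (X.prod K).sum (X.prod L) := Homeomorph.prodSumDistrib
    have e1 : (PMap.ofHomeo e.symm).comp (PMap.ofHomeo e) = PMap.id (X.prod (K.sum L)) := by
      ext x
      exact congrArg (fun y : X.prod (K.sum L) => (y : OnePoint (X.prod (K.sum L))))
        (e.symm_apply_apply x)
    have e2 : (PMap.ofHomeo e).comp (PMap.ofHomeo e.symm) = PMap.id ((X.prod K).sum (X.prod L)) := by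
      ext x
      exact congrArg (fun y : (X.prod K).sum (X.prod L) =>
        (y : OnePoint ((X.prod K).sum (X.prod L)))) (e.apply_symm_apply x)
    have i1 : PMap.ltens X (PMap.inl K L) = (PMap.ofHomeo e.symm).comp (PMap.inl _ _) := by
      ext x; rfl
    have i2 : PMap.ltens X (PMap.inr K L) = (PMap.ofHomeo e.symm).comp (PMap.inr _ _) := by
      ext x; rfl
    have hb : Function.Bijective (pb F (PMap.ofHomeo e.symm)) := by
      refine Function.bijective_iff_has_inverse.2 ⟨pb F (PMap.ofHomeo e), fun x => ?_, fun x => ?_⟩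
      · rw [← pb_comp, e1, pb_id]
      · rw [← pb_comp, e2, pb_id]
    have hc := (hF.sum (X.prod K) (X.prod L)).comp hb
    have key : ∀ x : F.obj (op (X.prod (K.sum L))),
        ((pb F (PMap.inl (X.prod K) (X.prod L)) (pb F (PMap.ofHomeo e.symm) x),
          pb F (PMap.inr (X.prod K) (X.prod L)) (pb F (PMap.ofHomeo e.symm) x)) :
          F.obj (op (X.prod K)) × F.obj (op (X.prod L))) =
        (pb F (PMap.ltens X (PMap.inl K L)) x, pb F (PMap.ltens X (PMap.inr K L)) x) := by
      intro x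
      rw [← pb_comp, ← pb_comp, i1, i2]
    have h2 : (fun x : F.obj (op (X.prod (K.sum L))) =>
        ((pb F (PMap.ltens X (PMap.inl K L)) x, pb F (PMap.ltens X (PMap.inr K L)) x) :
          F.obj (op (X.prod K)) × F.obj (op (X.prod L)))).Bijective := by
      have h3 : (fun x : F.obj (op (X.prod (K.sum L))) =>
        ((pb F (PMap.ltens X (PMap.inl K L)) x, pb F (PMap.ltens X (PMap.inr K L)) x) :
          F.obj (op (X.prod K)) × F.obj (op (X.prod L)))) = _ := funext fun x => (key x).symm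
      rw [h3]
      exact hc
    exact h2

/-- the structure map on homotopic representatives -/
theorem next_homotopic56 {Y : Prespectrum} {j : ℕ} {K : LC} {f g : Y.Rep j K}
    (h : PMap.Homotopic f g) : PMap.Homotopic f.next g.next := by
  obtain ⟨F, h0, h1⟩ := h
  let e : (LC.I.prod ((LC.cpow (Fin (j + 1))).prod K)) ≃ₜ
      LC.C.prod (LC.I.prod ((LC.cpow (Fin j)).prod K)) :=
    { toFun := fun x => (x.2.1 0, (x.1, (fun i => x.2.1 i.succ, x.2.2)))
      invFun := fun x => (x.2.1, ((Fin.cons x.1 x.2.2.1 : Fin (j + 1) → ℂ), x.2.2.2))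
      left_inv := by
        rintro ⟨t, v, k⟩
        refine Prod.ext rfl (Prod.ext (funext fun i => ?_) rfl)
        refine Fin.cases ?_ (fun i => ?_) i <;> simp
      right_inv := by
        rintro ⟨z, t, v, k⟩
        simp
      continuous_toFun := by fun_prop
      continuous_invFun := by
        refine Continuous.prodMk (by fun_prop) (Continuous.prodMk (continuous_pi fun i => ?_)
          (by fun_prop))
        refine Fin.cases ?_ (fun i => ?_) i
        · simp only [Fin.cons_zero]; fun_prop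
        · simp only [Fin.cons_succ]; fun_prop }
  refine ⟨(Y.sigC F).comp (PMap.ofHomeo e), fun k => ?_, fun k => ?_⟩
  · change Y.str _ (_, Y.str _ (_, F (0, _))) = Y.str _ (_, Y.str _ (_, f _))
    rw [h0]
    rfl
  · change Y.str _ (_, Y.str _ (_, F (1, _))) = Y.str _ (_, Y.str _ (_, g _))
    rw [h1]
    rfl

/-- naturality of the structure map -/
theorem next_comp56 {Y : Prespectrum} {j : ℕ} {K M : LC} (ψ : PMap K M.plus) (f : Y.Rep j M) :
    Prespectrum.Rep.next (Y := Y) (j := j) (K := K)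
      (PMap.comp f (PMap.ltens (LC.cpow (Fin j)) ψ)) =
      PMap.comp f.next (PMap.ltens (LC.cpow (Fin (j + 1))) ψ) := by
  ext ⟨v, a⟩
  change Y.str _ (_, Y.str _ (_, PMap.plus f (smashPt (LC.cpow (Fin j)) M
      (((fun i => v i.succ : Fin j → ℂ) : OnePoint (Fin j → ℂ)), ψ a)))) =
    PMap.plus f.next (smashPt (LC.cpow (Fin (j + 1))) M ((v : OnePoint (Fin (j + 1) → ℂ)), ψ a))
  rcases ψ a with _ | m
  · have h1 : PMap.plus f (smashPt (LC.cpow (Fin j)) M
        (((fun i => v i.succ : Fin j → ℂ) : OnePoint (Fin j → ℂ)),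
          (OnePoint.infty : OnePoint M))) = (Y.sp (2 * j)).pt := rfl
    exact (congrArg (fun z => Y.str _ (_, Y.str _ (_, z))) h1).trans (by rw [Y.str_pt, Y.str_pt]; rfl)
  · rfl

/-- `A ↦ [ℂ^j × A, Y (2b + 2j)]` -/
def RJ (Y : Prespectrum) (b j : ℕ) : LCᵒᵖ ⥤ Type :=
  (LC.prodL (LC.cpow (Fin j))).op ⋙ repF ((Y.upp b).sp (2 * j))

theorem isAddRJ (Y : Prespectrum) (b j : ℕ) : IsAddFun (RJ Y b j) :=
  isAddFun_prodL56 (isAddFun_repF _) _

/-- the class of a representative -/
def rcl {Y : Prespectrum} {b j : ℕ} {A : LC} (f : (Y.upp b).Rep j A) : (RJ Y b j).obj (op A) :=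
  PMap.cls f

theorem rcl_ind {Y : Prespectrum} {b j : ℕ} {A : LC} {P : (RJ Y b j).obj (op A) → Prop}
    (h : ∀ f : (Y.upp b).Rep j A, P (rcl f)) (x : (RJ Y b j).obj (op A)) : P x :=
  HMap.ind h x

theorem pb_rcl {Y : Prespectrum} {b j : ℕ} {A B : LC} (ψ : PMap A B.plus)
    (f : (Y.upp b).Rep j B) : pb (RJ Y b j) ψ (rcl f) =
      rcl (b := b) (j := j) (A := A) (PMap.comp f (PMap.ltens (LC.cpow (Fin j)) ψ)) := rfl

/-- the structure map as a natural transformation -/
def nextN (Y : Prespectrum) (b j : ℕ) : RJ Y b j ⟶ RJ Y b (j + 1) where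
  app A := TypeCat.ofHom fun x => (Quotient.map (fun f : (Y.upp b).Rep j A.unop => f.next)
    (fun _ _ h => next_homotopic56 h) x : HMap _ _)
  naturality A B f := by
    ext x
    revert x
    refine rcl_ind fun g => ?_
    obtain ⟨f⟩ := f
    revert f
    refine HMap.ind fun ψ => ?_
    exact congrArg (rcl (b := b) (j := j + 1)) (next_comp56 ψ g)

theorem nextN_rcl {Y : Prespectrum} {b j : ℕ} {A : LC} (f : (Y.upp b).Rep j A) :
    (nextN Y b j).app (op A) (rcl f) = rcl f.next := rfl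

/-- postcomposition as a natural transformation -/
def postN {Y Z : Prespectrum} {b c j : ℕ} (θ : (Y.upp b).sp (2 * j) → (Z.upp c).sp (2 * j))
    (hθ : Continuous θ) (h : θ ((Y.upp b).sp (2 * j)).pt = ((Z.upp c).sp (2 * j)).pt) :
    RJ Y b j ⟶ RJ Z c j where
  app A := TypeCat.ofHom fun x => (HMap.post θ hθ h (x : HMap _ _) : HMap _ _)
  naturality A B f := by
    ext x
    revert x
    refine rcl_ind fun g => ?_
    obtain ⟨f⟩ := f
    revert f
    refine HMap.ind fun ψ => ?_
    refine congrArg (rcl (b := c) (j := j)) ?_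
    ext ⟨v, a⟩
    change θ (PMap.plus g (smashPt (LC.cpow (Fin j)) A.unop
      ((v : OnePoint (Fin j → ℂ)), ψ a))) = PMap.plus (PMap.post θ hθ h g)
        (smashPt (LC.cpow (Fin j)) A.unop ((v : OnePoint (Fin j → ℂ)), ψ a))
    rcases ψ a with _ | m
    · exact h
    · rfl

theorem postN_rcl {Y Z : Prespectrum} {b c j : ℕ}
    (θ : (Y.upp b).sp (2 * j) → (Z.upp c).sp (2 * j)) (hθ : Continuous θ)
    (h : θ ((Y.upp b).sp (2 * j)).pt = ((Z.upp c).sp (2 * j)).pt) {A : LC}
    (f : (Y.upp b).Rep j A) : (postN (b := b) (c := c) θ hθ h).app (op A) (rcl f) =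
      rcl (Y := Z) (b := c) (PMap.post θ hθ h f) := rfl

/-- multiples in the group `[ℂ^j × ℂ × K, Y (2b + 2j)]` -/
def mulJ {Y : Prespectrum} {b j : ℕ} {K : LC} (n : ℤ) (x : (RJ Y b j).obj (op (LC.C.prod K))) :
    (RJ Y b j).obj (op (LC.C.prod K)) :=
  letI : AddCommGroup ((RJ Y b j).obj (op (LC.C.prod K))) := (isAddRJ Y b j).grp K
  n • x

/-- the zero element -/
def zeroJ (Y : Prespectrum) (b j : ℕ) (K : LC) : (RJ Y b j).obj (op (LC.C.prod K)) :=
  (isAddRJ Y b j).zero _

theorem mulJ_zero {Y : Prespectrum} {b j : ℕ} {K : LC} (n : ℤ) :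
    mulJ n (zeroJ Y b j K) = zeroJ Y b j K := by
  let _ : AddCommGroup ((RJ Y b j).obj (op (LC.C.prod K))) := (isAddRJ Y b j).grp K
  exact smul_zero n

theorem nat_mulJ {Y Z : Prespectrum} {b c j i : ℕ} {K : LC} (θ : RJ Y b j ⟶ RJ Z c i) (n : ℤ)
    (x : (RJ Y b j).obj (op (LC.C.prod K))) : θ.app _ (mulJ n x) = mulJ n (θ.app _ x) := by
  let _ : AddCommGroup ((RJ Y b j).obj (op (LC.C.prod K))) := (isAddRJ Y b j).grp K
  let _ : AddCommGroup ((RJ Z c i).obj (op (LC.C.prod K))) := (isAddRJ Z c i).grp K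
  let φ : ((RJ Y b j).obj (op (LC.C.prod K))) →+ ((RJ Z c i).obj (op (LC.C.prod K))) :=
    AddMonoidHom.mk' (fun x => θ.app _ x) (fun x y => (isAddRJ Y b j).add_nat (isAddRJ Z c i) θ x y)
  exact map_zsmul φ n x

theorem nat_zeroJ {Y Z : Prespectrum} {b c j i : ℕ} {K : LC} (θ : RJ Y b j ⟶ RJ Z c i) :
    θ.app _ (zeroJ Y b j K) = zeroJ Z c i K :=
  (isAddRJ Y b j).zero_nat (isAddRJ Z c i) θ _

/-- the class map -/
def clJ {Y : Prespectrum} {b j : ℕ} {K : Test} (x : (RJ Y b j).obj (op K.obj)) :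
    (((hT Y).H.h b).obj (op K) : Type) :=
  Quotient.lift (fun f => (hT Y).cls (b := b) (j := j) (K := K) f)
    (fun _ _ h => (hT Y).cls_homotopic h) x

theorem clJ_rcl {Y : Prespectrum} {b j : ℕ} {K : Test} (f : (Y.upp b).Rep j K.obj) :
    clJ (K := K) (rcl f) = (hT Y).cls (b := b) (j := j) (K := K) f := rfl

theorem clJ_add {Y : Prespectrum} {b j : ℕ} {K : Test}
    (x y : (RJ Y b j).obj (op (LC.C.prod K.obj))) :
    clJ (K := Test.cx.obj K) ((isAddRJ Y b j).add x y) =
      clJ (K := Test.cx.obj K) x + clJ (K := Test.cx.obj K) y := by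
  have key : ∀ w : (RJ Y b j).obj (op ((LC.C.prod K.obj).sum (LC.C.prod K.obj))),
      clJ (K := Test.cx.obj K) (pb (RJ Y b j) (pinchK K.obj) w) =
        clJ (K := Test.cx.obj K) (pb (RJ Y b j) (PMap.inl _ _) w) +
        clJ (K := Test.cx.obj K) (pb (RJ Y b j) (PMap.inr _ _) w) := by
    refine rcl_ind fun F => ?_
    exact cls_pinch (Y := Y) (b := b) (j := j) (K := Test.cx.obj K) F (pinchK K.obj)
      (pinchK_unit_left K.obj) (pinchK_unit_right K.obj)
  have h := key ((isAddRJ Y b j).pair x y)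
  have h1 := (isAddRJ Y b j).pair_inl x y
  have h2 := (isAddRJ Y b j).pair_inr x y
  exact h.trans (congrArg₂ (fun u w => clJ (Y := Y) (b := b) (j := j) (K := Test.cx.obj K) u +
    clJ (Y := Y) (b := b) (j := j) (K := Test.cx.obj K) w) h1 h2)

theorem clJ_mul {Y : Prespectrum} {b j : ℕ} {K : Test} (n : ℤ)
    (x : (RJ Y b j).obj (op (LC.C.prod K.obj))) :
    clJ (K := Test.cx.obj K) (mulJ n x) = n • clJ (K := Test.cx.obj K) x := by
  let _ : AddCommGroup ((RJ Y b j).obj (op (LC.C.prod K.obj))) := (isAddRJ Y b j).grp K.obj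
  let φ : ((RJ Y b j).obj (op (LC.C.prod K.obj))) →+
      (((hT Y).H.h b).obj (op (Test.cx.obj K)) : Type) :=
    AddMonoidHom.mk' (fun x => clJ (K := Test.cx.obj K) x) (fun x y => clJ_add x y)
  exact map_zsmul φ n x

theorem clJ_zero {Y : Prespectrum} {b j : ℕ} {K : Test} :
    clJ (K := Test.cx.obj K) (zeroJ Y b j K.obj) = 0 := by
  let _ : AddCommGroup ((RJ Y b j).obj (op (LC.C.prod K.obj))) := (isAddRJ Y b j).grp K.obj
  let φ : ((RJ Y b j).obj (op (LC.C.prod K.obj))) →+
      (((hT Y).H.h b).obj (op (Test.cx.obj K)) : Type) :=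
    AddMonoidHom.mk' (fun x => clJ (K := Test.cx.obj K) x) (fun x y => clJ_add x y)
  exact map_zero φ

end Pool.Agent.Helper1.Stab
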